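/-
Bit-sliced (truth table) evaluation of Boolean counters in the kernel.

A Boolean function of `m` variables is stored as the natural number `< 2 ^ 2 ^ m` whose
`t`-th bit is the value at the assignment `t` (variable `e` has the value `t.testBit e`).
A counter is a list of such numbers (binary digits, lowest first).
-/
import Mathlib

namespace Pool.Agent.Q97.BS

/-- forces the evaluation of a natural number in the kernel -/
def force {α : Type*} (x : ℕ) (k : ℕ → α) : α := Nat.rec (k 0) (fun n _ => k (n + 1)) x

@[simp] theorem force_eq {α : Type*} (x : ℕ) (k : ℕ → α) : force x k = k x := by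
  cases x <;> rfl

/-- truth table of the variable `e` among `m` variables -/
def tt : ℕ → ℕ → ℕ
  | 0, _ => 0
  | m + 1, e => if e = m then 2 ^ 2 ^ m * (2 ^ 2 ^ m - 1) + 0
                else 2 ^ 2 ^ m * tt m e + tt m e

theorem tt_lt (m e : ℕ) : tt m e < 2 ^ 2 ^ m := by
  induction m with
  | zero => simp [tt]
  | succ m ih =>
    have h1 : (2 : ℕ) ^ 2 ^ (m + 1) = 2 ^ 2 ^ m * 2 ^ 2 ^ m := by
      rw [← pow_add]; congr 1; ring
    have hp : 0 < (2 : ℕ) ^ 2 ^ m := by positivity
    rw [tt, h1]
    split_ifs
    · simp only [add_zero]
      exact Nat.mul_lt_mul_of_pos_left (by omega) hp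
    · calc 2 ^ 2 ^ m * tt m e + tt m e < 2 ^ 2 ^ m * tt m e + 2 ^ 2 ^ m := by omega
        _ = 2 ^ 2 ^ m * (tt m e + 1) := by ring
        _ ≤ _ := Nat.mul_le_mul_left _ ih

theorem testBit_tt (m e t : ℕ) (he : e < m) (ht : t < 2 ^ m) :
    (tt m e).testBit t = t.testBit e := by
  induction m generalizing t with
  | zero => omega
  | succ m ih =>
    have hp : 0 < (2 : ℕ) ^ 2 ^ m := by positivity
    rw [tt]
    by_cases hem : e = m
    · subst hem
      rw [if_pos rfl, Nat.testBit_two_pow_mul_add _ hp]
      split_ifs with h
      · rw [Nat.zero_testBit, Nat.testBit_lt_two_pow h]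
      · have h2 : t - 2 ^ e < 2 ^ e := by rw [pow_succ] at ht; omega
        rw [Nat.testBit_two_pow_sub_one]
        have h3 : t.testBit e = true := by
          have : t = 2 ^ e * 1 + (t - 2 ^ e) := by omega
          rw [this, Nat.testBit_two_pow_mul_add _ h2]
          simp
        rw [h3]; simpa using h2
    · rw [if_neg hem, Nat.testBit_two_pow_mul_add _ (tt_lt m e)]
      have hem' : e < m := by omega
      split_ifs with h
      · exact ih t hem' h
      · have h2 : t - 2 ^ m < 2 ^ m := by rw [pow_succ] at ht; omega
        rw [ih _ hem' h2]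
        have : t = 2 ^ m * 1 + (t - 2 ^ m) := by omega
        conv_rhs => rw [this, Nat.testBit_two_pow_mul_add _ h2]
        simp [hem']

/-- the constant true function of `m` variables -/
def full (m : ℕ) : ℕ := 2 ^ 2 ^ m - 1

theorem testBit_full (m t : ℕ) (ht : t < 2 ^ m) : (full m).testBit t = true := by
  rw [full, Nat.testBit_two_pow_sub_one]; simpa using ht

/-- value of a bit-sliced counter at the assignment `t` -/
def val : List ℕ → ℕ → ℕ
  | [], _ => 0
  | b :: bs, t => (b.testBit t).toNat + 2 * val bs t

/-- add the Boolean function `c` to the counter (continuation passing, evaluated eagerly) -/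
def addK {α : Type} : List ℕ → ℕ → (List ℕ → α) → α
  | [], c, k => bif Nat.beq c 0 then k [] else k [c]
  | b :: bs, c, k => force (Nat.xor b c) fun s => force (Nat.land b c) fun d =>
      addK bs d fun r => k (s :: r)

/-- add the Boolean function `c` to the counter -/
def add (bs : List ℕ) (c : ℕ) : List ℕ := addK bs c id

theorem addK_eq {α : Type} (bs : List ℕ) (c : ℕ) (k : List ℕ → α) :
    addK bs c k = k (add bs c) := by
  induction bs generalizing α c with
  | nil =>
    simp only [addK, add]
    cases Nat.beq c 0 <;> rfl
  | cons b bs ih =>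
    simp only [addK, add, force_eq]
    rw [ih, ih]; rfl

theorem val_add (bs : List ℕ) (c t : ℕ) :
    val (add bs c) t = val bs t + (c.testBit t).toNat := by
  induction bs generalizing c with
  | nil =>
    simp only [add, addK]
    cases h : Nat.beq c 0
    · simp [val]
    · have : c = 0 := Nat.eq_of_beq_eq_true h
      subst this; simp [val]
  | cons b bs ih =>
    have h : add (b :: bs) c = (Nat.xor b c) :: add bs (Nat.land b c) := by
      simp only [add, addK, force_eq]
      rw [addK_eq]; rfl
    rw [h, val, ih, val]
    have h1 : (Nat.xor b c).testBit t = (b.testBit t ^^ c.testBit t) := Nat.testBit_xor b c t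
    have h2 : (Nat.land b c).testBit t = (b.testBit t && c.testBit t) := Nat.testBit_and b c t
    rw [h1, h2]
    cases b.testBit t <;> cases c.testBit t <;> simp <;> omega

/-- the truth table of the counter has the value `h` on `m` variables -/
def eqT (m : ℕ) : List ℕ → ℕ → ℕ
  | [], h => bif Nat.beq h 0 then full m else 0
  | b :: bs, h => Nat.land (bif Nat.beq (h % 2) 1 then b else Nat.xor (full m) b) (eqT m bs (h / 2))

theorem testBit_eqT (m : ℕ) (bs : List ℕ) (h t : ℕ) (ht : t < 2 ^ m) (hv : val bs t = h) :
    (eqT m bs h).testBit t = true := by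
  induction bs generalizing h with
  | nil =>
    simp only [val] at hv
    subst hv
    simp [eqT, testBit_full m t ht]
  | cons b bs ih =>
    rw [eqT]
    have h2 : ∀ x y : ℕ, (Nat.land x y).testBit t = (x.testBit t && y.testBit t) :=
      fun x y => Nat.testBit_and x y t
    have h1 : ∀ x y : ℕ, (Nat.xor x y).testBit t = (x.testBit t ^^ y.testBit t) :=
      fun x y => Nat.testBit_xor x y t
    rw [val] at hv
    have h3 : val bs t = h / 2 := by
      cases hb : b.testBit t <;> rw [hb] at hv <;> simp at hv <;> omega
    rw [h2, ih _ h3, Bool.and_true]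
    cases hb : b.testBit t
    · rw [hb] at hv
      have : h % 2 = 0 := by simp at hv; omega
      rw [this, show Nat.beq 0 1 = false from rfl, cond_false, h1, testBit_full m t ht, hb]
      rfl
    · rw [hb] at hv
      have : h % 2 = 1 := by simp at hv; omega
      rw [this, show Nat.beq 1 1 = true from rfl, cond_true, hb]

/-- if the truth table of counter = h is `0` then no assignment has the value `h` -/
theorem val_ne_of_eqT (m : ℕ) (bs : List ℕ) (h : ℕ) (h0 : eqT m bs h = 0) (t : ℕ)
    (ht : t < 2 ^ m) : val bs t ≠ h := by
  intro hv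
  have := testBit_eqT m bs h t ht hv
  rw [h0] at this
  simp at this

end Pool.Agent.Q97.BS
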